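import Mathlib
import Pool.Agent.H14.SokalReal

set_option autoImplicit false
open Finset Polynomial Pool.Agent.H14.SokalReal

namespace Pool.Agent.Results.MP_97ada9_an.RealQ

/-- The polynomial `P_N(z; q)`. -/
noncomputable def P (N : ℕ) (z q : ℂ) : ℂ :=
  ∑ k ∈ range (N + 1), (N.choose k : ℂ) * q ^ (k * (k - 1) / 2) * z ^ k

lemma main (ε Q : ℝ) (he : ε = 1 ∨ ε = -1) (Q0 : 0 < Q) (Q1 : Q < 1) (n : ℕ) :
    ∃ r : ℕ → ℝ, (∀ j, 0 < r j) ∧ (∀ j, r j ≤ Q * r (j + 1)) ∧
      ∀ z : ℂ, (∏ j ∈ range n, (r j : ℂ)) * P n z (ε * Q : ℝ) = ∏ j ∈ range n, (r j + ε ^ j * z) := by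
  induction n with
  | zero =>
    exact ⟨fun j => 1 / Q ^ j, fun j => by positivity, fun j => le_of_eq (by field_simp; ring), by simp [P]⟩
  | succ n ih =>
    obtain ⟨r, p, q, e⟩ := ih
    obtain ⟨s, ps, qs, es⟩ := step ε Q he Q0 Q1 n r p q
    refine ⟨s, ps, qs, fun z => ?_⟩
    have sm : StrictMono s := strictMono_nat_of_lt_succ fun j => by nlinarith [ps (j + 1), qs j]
    have ab : ∀ j, |-(ε ^ j * s j)| = s j := fun j => by
      rcases he with rfl | rfl <;> simp [abs_mul, abs_of_pos (ps j)]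
    have sq : ∀ j : ℕ, ε ^ j * ε ^ j = 1 := fun j => by
      rw [← mul_pow]
      rcases he with rfl | rfl <;> simp
    have dg : ∀ (a b : ℕ → ℝ) (m : ℕ), (∏ i ∈ range m, (C (a i) * X + C (b i)) : ℝ[X]).natDegree ≤ m :=
      fun a b m => (natDegree_prod_le _ _).trans
        ((sum_le_sum (g := fun _ => 1) fun i _ => natDegree_linear_le).trans (by simp))
    have eq : (C (∏ i ∈ range (n + 1), s i) * (∏ i ∈ range n, (C (ε ^ i) * X + C (r i)) +
        X * ∏ i ∈ range n, (C (ε ^ (i + 1) * Q) * X + C (r i))) : ℝ[X]) =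
        C (∏ i ∈ range n, r i) * ∏ i ∈ range (n + 1), (C (ε ^ i) * X + C (s i)) := by
      refine eq_of_degrees_lt_of_eval_index_eq (range (n + 2))
        (v := fun j => if j ≤ n then -(ε ^ j * s j) else 0) (fun a ha b hb h => ?_) ?_ ?_ fun j hj => ?_
      · have ha' := mem_range.1 (mem_coe.1 ha)
        have hb' := mem_range.1 (mem_coe.1 hb)
        have h := congrArg abs h
        dsimp only at h
        split_ifs at h with h1 h2 h2
        · rw [ab, ab] at h
          exact sm.injective h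
        · rw [ab, abs_zero] at h
          exact absurd h (ps a).ne'
        · rw [ab, abs_zero] at h
          exact absurd h (ps b).ne
        · omega
      · rw [card_range]
        refine degree_le_natDegree.trans_lt (Nat.cast_lt.2 ((natDegree_C_mul_le _ _).trans_lt ?_))
        refine (natDegree_add_le _ _).trans_lt (max_lt ((dg _ _ _).trans_lt (by omega)) ?_)
        refine natDegree_mul_le.trans_lt ?_
        have := dg (fun i => ε ^ (i + 1) * Q) r n
        rw [natDegree_X]
        omega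
      · rw [card_range]
        exact degree_le_natDegree.trans_lt (Nat.cast_lt.2 ((natDegree_C_mul_le _ _).trans_lt
          ((dg _ _ _).trans_lt (by omega))))
      · simp only [eval_add, eval_mul, eval_prod, eval_X, eval_C]
        split_ifs with h
        · have z0 : ∏ i ∈ range (n + 1), (ε ^ i * -(ε ^ j * s j) + s i) = 0 :=
            prod_eq_zero (mem_range.2 (show j < n + 1 by omega)) (by linear_combination (-s j) * sq j)
          rw [z0, mul_zero, prod_congr rfl fun i _ =>
            (by ring : ε ^ i * -(ε ^ j * s j) + r i = r i - ε ^ (i + j) * s j), prod_congr rfl fun i _ =>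
            (by ring : ε ^ (i + 1) * Q * -(ε ^ j * s j) + r i = r i - ε ^ (i + j + 1) * (Q * s j))]
          linear_combination (∏ i ∈ range (n + 1), s i) * es j h
        · simp [mul_comm]
    have := congrArg (aeval z) eq
    simp only [map_add, map_mul, map_prod, map_pow, aeval_X, aeval_C, Complex.coe_algebraMap] at this
    have r0 : (∏ j ∈ range n, (r j : ℂ)) ≠ 0 := prod_ne_zero_iff.2 fun i _ => by exact_mod_cast (p i).ne'
    have rc : P (n + 1) z (ε * Q : ℝ) = P n z (ε * Q : ℝ) + z * P n ((ε * Q : ℝ) * z) (ε * Q : ℝ) :=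
      recur n z _
    have e1 := e z
    have e2 := e ((ε * Q : ℝ) * z)
    rw [prod_congr rfl fun i _ => (by ring : (r i : ℂ) + ε ^ i * z = ε ^ i * z + r i)] at e1
    rw [prod_congr rfl fun i _ => (by push_cast; ring :
      (r i : ℂ) + ε ^ i * ((ε * Q : ℝ) * z) = ε ^ (i + 1) * Q * z + r i)] at e2
    refine mul_left_cancel₀ r0 ?_
    rw [rc, prod_congr rfl fun i _ => (by ring : (s i : ℂ) + ε ^ i * z = ε ^ i * z + s i), ← this, ← e1, ← e2]
    ring

theorem result (N : ℕ) (q : ℝ) (h0 : q ≠ 0) (h1 : |q| < 1) : ∃ r : ℕ → ℝ, (∀ j, r j ≠ 0) ∧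
    (∀ j, |r j| ≤ |q| * |r (j + 1)|) ∧ (∀ i j, i < j → |r i| < |r j|) ∧
    ∀ z : ℂ, P N z q = ∏ j ∈ range N, (1 - z / r j) := by
  obtain ⟨ε, he, hq⟩ : ∃ ε : ℝ, (ε = 1 ∨ ε = -1) ∧ ε * |q| = q := by
    rcases le_total 0 q with h | h
    · exact ⟨1, Or.inl rfl, by rw [abs_of_nonneg h, one_mul]⟩
    · exact ⟨-1, Or.inr rfl, by rw [abs_of_nonpos h]; ring⟩
  obtain ⟨r, p, s, e⟩ := main ε |q| he (abs_pos.2 h0) h1 N
  have ab : ∀ j, |-(ε ^ j * r j)| = r j := fun j => by
    rcases he with rfl | rfl <;> simp [abs_mul, abs_of_pos (p j)]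
  have sm : StrictMono r := strictMono_nat_of_lt_succ fun j => by nlinarith [p (j + 1), s j]
  have rc : ∀ i, (r i : ℂ) ≠ 0 := fun i => by exact_mod_cast (p i).ne'
  refine ⟨fun j => -(ε ^ j * r j), fun j h => (p j).ne' (by rw [← ab j]; exact abs_eq_zero.2 h),
    fun j => by simpa only [ab] using s j, fun i j h => by simpa only [ab] using sm h, fun z => ?_⟩
  have := e z
  rw [hq] at this
  refine mul_left_cancel₀ (prod_ne_zero_iff.2 fun i _ => rc i) (this.trans ?_)
  rw [← prod_mul_distrib]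
  refine prod_congr rfl fun j _ => ?_
  have := rc j
  rcases he with rfl | rfl
  · push_cast
    field_simp
    ring
  · rcases Nat.even_or_odd j with h | h <;> simp only [h.neg_one_pow] <;> push_cast <;>
      simp only [h.neg_one_pow] <;> field_simp <;> ring

end Pool.Agent.Results.MP_97ada9_an.RealQ
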